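import Pool.Agent.Y395.CostSep

/-!
Path-pairable graphs without a `K_t` minor have a vertex of linear degree.
-/

set_option autoImplicit false

namespace Pool.Agent.Y395

open Finset

variable {V : Type*} [Fintype V] [DecidableEq V] {G : SimpleGraph V}

/-- no edges leave the set, except to `X` -/
def ClosedOff (G : SimpleGraph V) (X L : Finset V) : Prop :=
  Disjoint L X ∧ ∀ u ∈ L, ∀ w, w ∉ L → G.Adj u w → w ∈ X

/-- splitting the vertex set, if all connected sets avoiding `X` are small -/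
lemma exists_split {X : Finset V} (hX : ∀ K, Conn G K → Disjoint K X → 2 * K.card ≤ Fintype.card V)
    (hX8 : 8 * X.card < Fintype.card V) :
    ∃ L, ClosedOff G X L ∧ Fintype.card V < 4 * L.card ∧ 2 * L.card ≤ Fintype.card V := by
  classical
  set n := Fintype.card V with hn
  let F : Finset (Finset V) := univ.filter (fun L => ClosedOff G X L ∧ 2 * L.card ≤ n)
  have hF : ∀ L, L ∈ F ↔ ClosedOff G X L ∧ 2 * L.card ≤ n := by
    intro L
    simp [F]
  have h0 : ∅ ∈ F := by
    rw [hF]
    exact ⟨⟨by simp, by simp⟩, by simp⟩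
  obtain ⟨L, hLF, hmax⟩ := exists_max_image F (fun L => L.card) ⟨_, h0⟩
  obtain ⟨hL, hL2⟩ := (hF L).1 hLF
  by_cases h4 : n < 4 * L.card
  · exact ⟨L, hL, h4, hL2⟩
  push Not at h4
  -- a vertex outside
  obtain ⟨w, hw⟩ : ∃ w, w ∉ L ∪ X := by
    by_contra hcon
    push Not at hcon
    have h1 : L ∪ X = univ := eq_univ_iff_forall.2 hcon
    have h2 := card_union_le L X
    rw [h1, card_univ] at h2
    omega
  rw [mem_union, not_or] at hw
  let F2 : Finset (Finset V) := univ.filter (fun K => Conn G K ∧ Disjoint K X ∧ w ∈ K)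
  have hF2 : ∀ K, K ∈ F2 ↔ Conn G K ∧ Disjoint K X ∧ w ∈ K := by
    intro K
    simp [F2]
  obtain ⟨K, hKF, hKmax⟩ := exists_max_image F2 (fun K => K.card)
    ⟨{w}, (hF2 _).2 ⟨conn_singleton w, by simpa using hw.2, by simp⟩⟩
  obtain ⟨k1, k2, k3⟩ := (hF2 K).1 hKF
  have hKcl : ClosedOff G X K := by
    refine ⟨k2, ?_⟩
    intro u hu x hx hux
    by_contra hxX
    have e4 : (K ∪ {x}).card = K.card + 1 := by
      rw [card_union_of_disjoint (by simpa using hx), card_singleton]
    have e5 := hKmax (K ∪ {x}) ((hF2 _).2 ⟨k1.union_adj (conn_singleton x) hu (by simp) hux, by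
      rw [disjoint_union_left]
      exact ⟨k2, by simpa using hxX⟩, mem_union_left _ k3⟩)
    simp only [e4] at e5
    omega
  have hK2 := hX K k1 k2
  have hdis : Disjoint L K := by
    by_contra hcon
    rw [not_disjoint_iff] at hcon
    obtain ⟨x, hx, hx'⟩ := hcon
    apply hw.1
    refine k1.spread hx' hx ?_ w k3
    intro u hu huL y hy huy
    by_contra hyL
    exact Finset.disjoint_left.1 k2 hy (hL.2 u huL y hyL huy)
  have hLK : ClosedOff G X (L ∪ K) := by
    refine ⟨by rw [disjoint_union_left]; exact ⟨hL.1, k2⟩, ?_⟩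
    intro u hu x hx hux
    rw [mem_union, not_or] at hx
    rcases mem_union.1 hu with hu | hu
    · exact hL.2 u hu x hx.1 hux
    · exact hKcl.2 u hu x hx.2 hux
  have hLKc : n < 2 * (L ∪ K).card := by
    by_contra hcon
    push Not at hcon
    have h1 := hmax (L ∪ K) ((hF _).2 ⟨hLK, hcon⟩)
    have h2 := card_union_of_disjoint hdis
    have h3 : 0 < K.card := card_pos.2 ⟨w, k3⟩
    simp only [h2] at h1
    omega
  rw [card_union_of_disjoint hdis] at hLKc
  exact ⟨K, hKcl, by omega, hK2⟩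

/-- path-pairability -/
def PathPairable (G : SimpleGraph V) : Prop :=
  ∀ (k : ℕ) (s r : Fin k → V), Function.Injective (Sum.elim s r) →
    ∃ p : (i : Fin k) → G.Walk (s i) (r i), (∀ i, (p i).IsPath) ∧
      ∀ i j, i ≠ j → ∀ e ∈ (p i).edges, e ∉ (p j).edges

/-- in a path-pairable graph many edges leave a closed-off set -/
lemma pairs_le [DecidableRel G.Adj] (hG : PathPairable G) {X L : Finset V}
    (hL : ClosedOff G X L) {m : ℕ} (h1 : m ≤ L.card) (h2 : m ≤ Lᶜ.card) :
    m ≤ ∑ x ∈ X, G.degree x := by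
  classical
  obtain ⟨L1, hL1, hL1c⟩ := exists_subset_card_eq h1
  obtain ⟨R1, hR1, hR1c⟩ := exists_subset_card_eq h2
  let s : Fin m → V := fun i => (L1.equivFinOfCardEq hL1c).symm i
  let r : Fin m → V := fun i => (R1.equivFinOfCardEq hR1c).symm i
  have hs : ∀ i, s i ∈ L := fun i => hL1 ((L1.equivFinOfCardEq hL1c).symm i).2
  have hr : ∀ i, r i ∉ L := fun i => mem_compl.1 (hR1 ((R1.equivFinOfCardEq hR1c).symm i).2)
  have hinj : Function.Injective (Sum.elim s r) := by
    apply Function.Injective.sumElim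
    · intro i j hij
      exact (L1.equivFinOfCardEq hL1c).symm.injective (Subtype.ext hij)
    · intro i j hij
      exact (R1.equivFinOfCardEq hR1c).symm.injective (Subtype.ext hij)
    · intro i j hij
      exact hr j (hij ▸ hs i)
  obtain ⟨p, _, hp⟩ := hG m s r hinj
  have hex : ∀ i, ∃ e ∈ (p i).edges, ∃ x ∈ X, e ∈ G.incidenceFinset x := by
    intro i
    obtain ⟨d, hd, hd1, hd2⟩ := (p i).exists_boundary_dart {v | v ∈ L} (hs i) (hr i)
    refine ⟨d.edge, List.mem_map_of_mem hd, d.snd, hL.2 d.fst hd1 d.snd hd2 d.adj, ?_⟩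
    rw [SimpleGraph.mem_incidenceFinset]
    refine ⟨d.edge_mem, ?_⟩
    simp [SimpleGraph.Dart.edge]
  choose e he x hx hex using hex
  have heinj : Function.Injective e := by
    intro i j hij
    by_contra hne
    exact hp i j hne (e i) (he i) (hij ▸ he j)
  calc m = (univ : Finset (Fin m)).card := by simp
    _ ≤ (X.biUnion (fun x => G.incidenceFinset x)).card := by
      apply card_le_card_of_injOn e
      · intro i _
        exact mem_biUnion.2 ⟨x i, hx i, hex i⟩
      · exact heinj.injOn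
    _ ≤ ∑ x ∈ X, (G.incidenceFinset x).card := card_biUnion_le
    _ = ∑ x ∈ X, G.degree x := by simp

theorem degree_bound [DecidableRel G.Adj] (t : ℕ) (hn2 : 2 ≤ Fintype.card V)
    (hG : PathPairable G) (hno : ¬ Model G t univ) :
    (Fintype.card V) ^ 2 ≤ 256 * t ^ 2 * (t + 1) * ∑ v, G.degree v ^ 2 := by
  classical
  set n := Fintype.card V with hn
  -- all degrees are positive
  have hdeg : ∀ v, 1 ≤ G.degree v := by
    intro v
    obtain ⟨w, hw⟩ : ∃ w, w ≠ v := by
      have : Nontrivial V := Fintype.one_lt_card_iff_nontrivial.1 (by omega)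
      exact exists_ne v
    obtain ⟨p, _⟩ := hG 1 (fun _ => v) (fun _ => w) (by
      apply Function.Injective.sumElim
      · intro i j _; exact Subsingleton.elim _ _
      · intro i j _; exact Subsingleton.elim _ _
      · intro i j h; exact hw h.symm)
    have q := p 0
    rw [Nat.one_le_iff_ne_zero]
    intro h0
    cases q with
    | nil => exact hw rfl
    | cons h _ =>
      have h1 := (G.degree_pos_iff_exists_adj v).2 ⟨_, h⟩
      omega
  set y := (t + 1) * ∑ v, G.degree v ^ 2 with hy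
  have hy1 : 1 ≤ y := by
    obtain ⟨v⟩ : Nonempty V := Fintype.card_pos_iff.1 (by omega)
    have h1 : G.degree v ^ 2 ≤ ∑ v, G.degree v ^ 2 :=
      single_le_sum (f := fun v => G.degree v ^ 2) (fun _ _ => Nat.zero_le _) (mem_univ v)
    have h2 : 1 ≤ G.degree v ^ 2 := Nat.one_le_pow _ _ (hdeg v)
    rw [hy]
    exact Nat.one_le_iff_ne_zero.2 (Nat.mul_ne_zero (by omega) (by omega))
  obtain ⟨X, hXc, hX⟩ := cost_separator hno (fun v => G.degree v) (r := Nat.sqrt y + 1)
    (by omega) (by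
      have := Nat.lt_succ_sqrt y
      rw [← hy, pow_two]
      exact this.le)
  have hXcard : X.card ≤ cost (fun v => G.degree v) X := by
    unfold cost
    rw [card_eq_sum_ones]
    exact sum_le_sum fun v _ => hdeg v
  have hcost : n ≤ 8 * cost (fun v => G.degree v) X := by
    by_contra hcon
    push Not at hcon
    obtain ⟨L, hL1, hL2, hL3⟩ := exists_split hX (by omega)
    have h1 : Lᶜ.card = n - L.card := card_compl L
    -- the other side
    have h2 := pairs_le hG hL1 (m := min L.card Lᶜ.card) (min_le_left _ _) (min_le_right _ _)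
    have h3 : cost (fun v => G.degree v) X = ∑ x ∈ X, G.degree x := rfl
    have h4 : L.card ≤ n := card_le_univ _
    rw [h1] at h2
    rw [h3] at hcon
    have h5 : L.card ≤ n - L.card := by omega
    rw [min_eq_left h5] at h2
    omega
  have hs1 : 1 ≤ Nat.sqrt y := by
    rw [Nat.le_sqrt]
    simpa using hy1
  have hs2 : Nat.sqrt y * Nat.sqrt y ≤ y := Nat.sqrt_le y
  have h1 : n ≤ 8 * (t * (Nat.sqrt y + 1)) := hcost.trans (Nat.mul_le_mul_left _ hXc)
  have h2 : n ≤ 16 * t * Nat.sqrt y := by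
    calc n ≤ 8 * (t * (Nat.sqrt y + 1)) := h1
      _ ≤ 8 * (t * (Nat.sqrt y + Nat.sqrt y)) := by gcongr
      _ = 16 * t * Nat.sqrt y := by ring
  calc n ^ 2 ≤ (16 * t * Nat.sqrt y) ^ 2 := Nat.pow_le_pow_left h2 2
    _ = 256 * t ^ 2 * (Nat.sqrt y * Nat.sqrt y) := by ring
    _ ≤ 256 * t ^ 2 * y := Nat.mul_le_mul_left _ hs2
    _ = 256 * t ^ 2 * (t + 1) * ∑ v, G.degree v ^ 2 := by rw [hy]; ring

theorem linear_degree [DecidableRel G.Adj] (t : ℕ) (hn2 : 2 ≤ Fintype.card V)
    (hG : PathPairable G) (hno : ¬ Model G t univ) :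
    ∃ v : V, (1 / (512 * (t + 1) ^ 3 * 2 ^ t) : ℝ) * (Fintype.card V : ℝ) ≤ (G.degree v : ℝ) := by
  classical
  set n := Fintype.card V with hn
  by_contra hcon
  push Not at hcon
  have h1 := degree_bound t hn2 hG hno
  have h2 : ∑ v, G.degree v ≤ 2 * 2 ^ t * n := by
    by_contra h3
    push Not at h3
    have hne : (univ : Finset V).Nonempty := by
      rw [univ_nonempty_iff]
      exact Fintype.card_pos_iff.1 (by omega)
    apply hno
    apply dense_model t _ univ rfl hne
    rw [card_univ]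
    have h4 : dsum G (univ : Finset V) = ∑ v, G.degree v := by
      unfold dsum
      refine sum_congr rfl fun v _ => ?_
      rw [← SimpleGraph.card_neighborFinset_eq_degree]
      congr 1
      ext w
      simp [mem_nb]
    rw [h4]
    exact h3.le
  have hnpos : (0 : ℝ) < n := by
    have : 0 < n := by omega
    exact_mod_cast this
  set c : ℝ := 1 / (512 * (t + 1) ^ 3 * 2 ^ t) with hc
  have hcpos : 0 < c := by positivity
  have h3 : ((∑ v, G.degree v ^ 2 : ℕ) : ℝ) ≤ c * n * (2 * 2 ^ t * n) := by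
    have h5 : ((∑ v, G.degree v : ℕ) : ℝ) ≤ 2 * 2 ^ t * n := by exact_mod_cast h2
    calc ((∑ v, G.degree v ^ 2 : ℕ) : ℝ) = ∑ v, (G.degree v : ℝ) ^ 2 := by push_cast; rfl
      _ ≤ ∑ v, (c * n) * (G.degree v : ℝ) := by
        refine sum_le_sum fun v _ => ?_
        rw [pow_two]
        exact mul_le_mul_of_nonneg_right (hcon v).le (Nat.cast_nonneg _)
      _ = c * n * ((∑ v, G.degree v : ℕ) : ℝ) := by rw [← mul_sum]; push_cast; rfl
      _ ≤ c * n * (2 * 2 ^ t * n) := mul_le_mul_of_nonneg_left h5 (by positivity)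
  have h4 : ((n : ℝ)) ^ 2 ≤ 256 * t ^ 2 * (t + 1) * ((∑ v, G.degree v ^ 2 : ℕ) : ℝ) := by
    exact_mod_cast h1
  have h5 : ((n : ℝ)) ^ 2 ≤ 256 * t ^ 2 * (t + 1) * (c * n * (2 * 2 ^ t * n)) :=
    h4.trans (mul_le_mul_of_nonneg_left h3 (by positivity))
  have h6 : (256 : ℝ) * t ^ 2 * (t + 1) * (c * n * (2 * 2 ^ t * n)) =
      (t ^ 2 / (t + 1) ^ 2) * n ^ 2 := by
    rw [hc]
    field_simp
    ring
  rw [h6] at h5
  have h7 : (t : ℝ) ^ 2 / (t + 1) ^ 2 < 1 := by
    rw [div_lt_one (by positivity)]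
    have : (0 : ℝ) ≤ t := Nat.cast_nonneg t
    nlinarith
  have h8 : (0 : ℝ) < n ^ 2 := by positivity
  nlinarith

end Pool.Agent.Y395
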