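import Mathlib

/-!
Connected finite vertex sets: basic tools.
-/

set_option autoImplicit false

namespace Pool.Agent.Y395

open Finset

variable {V : Type*} {G : SimpleGraph V}

/-- connectivity of the subgraph induced on a finite set -/
abbrev Conn (G : SimpleGraph V) (S : Finset V) : Prop := (G.induce (S : Set V)).Connected

lemma Conn.ne {S : Finset V} (h : Conn G S) : S.Nonempty := by
  obtain ⟨x⟩ := SimpleGraph.Connected.nonempty h
  exact ⟨x.1, x.2⟩

/-- properties spread over connected sets -/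
lemma Conn.spread {S : Finset V} (h : Conn G S) {P : V → Prop} {v : V} (hv : v ∈ S) (hP : P v)
    (hstep : ∀ u ∈ S, P u → ∀ w ∈ S, G.Adj u w → P w) : ∀ w ∈ S, P w := by
  intro w hw
  obtain ⟨p⟩ := h.preconnected ⟨v, hv⟩ ⟨w, hw⟩
  have key : ∀ {a b : (S : Set V)} (p : (G.induce (S : Set V)).Walk a b), P a.1 → P b.1 := by
    intro a b p
    induction p with
    | nil => exact id
    | cons hadj p ih => exact fun ha => ih (hstep _ (Subtype.property _) ha _ (Subtype.property _) hadj)
  exact key p hP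

lemma conn_singleton (v : V) : Conn G ({v} : Finset V) := by
  have : Nonempty ((({v} : Finset V) : Set V)) := ⟨⟨v, by simp⟩⟩
  refine SimpleGraph.Connected.mk ?_
  rintro ⟨a, ha⟩ ⟨b, hb⟩
  simp only [coe_singleton, Set.mem_singleton_iff] at ha hb
  subst ha
  subst hb
  exact SimpleGraph.Reachable.refl _

lemma Conn.union_adj [DecidableEq V] {S T : Finset V} (hS : Conn G S) (hT : Conn G T) {u v : V}
    (hu : u ∈ S) (hv : v ∈ T) (huv : G.Adj u v) : Conn G (S ∪ T) := by
  unfold Conn
  rw [coe_union]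
  exact SimpleGraph.connected_induce_union hS.preconnected hT.preconnected hu hv huv

lemma Conn.union_inter [DecidableEq V] {S T : Finset V} (hS : Conn G S) (hT : Conn G T) {u : V}
    (hu : u ∈ S) (hv : u ∈ T) : Conn G (S ∪ T) := by
  unfold Conn
  rw [coe_union]
  exact SimpleGraph.induce_union_connected hS.preconnected hT.preconnected ⟨u, hu, hv⟩

lemma conn_of_root {S : Finset V} {r : V} (hr : r ∈ S)
    (h : ∀ v ∈ S, ∃ K ⊆ S, Conn G K ∧ r ∈ K ∧ v ∈ K) : Conn G S := by
  rw [Conn, SimpleGraph.connected_iff_exists_forall_reachable]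
  refine ⟨⟨r, hr⟩, ?_⟩
  rintro ⟨v, hv⟩
  obtain ⟨K, hKS, hK, hrK, hvK⟩ := h v hv
  have h1 := hK.preconnected ⟨r, hrK⟩ ⟨v, hvK⟩
  exact h1.map (SimpleGraph.induceHomOfLE G (by exact_mod_cast hKS)).toHom

end Pool.Agent.Y395
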