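import Pool.Agent.Y395.Density

/-!
The separator theorem of Alon, Seymour and Thomas for graphs without `K_h` minor, with vertex costs:
if `(h + 1) ∑ c(v)² ≤ r²` then there is a set `X` of cost at most `h r` such that every connected
set avoiding `X` has at most half of the vertices.
-/

set_option autoImplicit false

namespace Pool.Agent.Y395

open Finset

variable {V : Type*} [DecidableEq V] {G : SimpleGraph V}

/-- counting lemma for monotone predicates -/
lemma card_window {P : ℕ → Prop} (hP : ∀ a b, a ≤ b → P a → P b) (r c : ℕ)
    [DecidablePred (fun x => P (x + c) ∧ ¬ P x)] :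
    ((range r).filter (fun x => P (x + c) ∧ ¬ P x)).card ≤ c := by
  classical
  by_cases h : ∃ m, P m
  · have h1 : (range r).filter (fun x => P (x + c) ∧ ¬ P x) ⊆ Ico (Nat.find h - c) (Nat.find h) := by
      intro x hx
      rw [mem_filter] at hx
      obtain ⟨_, h2, h3⟩ := hx
      rw [mem_Ico]
      have h4 : Nat.find h ≤ x + c := Nat.find_min' h h2
      have h5 : x < Nat.find h := by
        by_contra hcon
        push Not at hcon
        exact h3 (hP _ _ hcon (Nat.find_spec h))
      omega
    refine (card_le_card h1).trans ?_
    rw [Nat.card_Ico]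
    omega
  · push Not at h
    rw [filter_false_of_mem]
    · simp
    · intro x _ hx
      exact h _ hx.1

/-- cost of a set -/
def cost (c : V → ℕ) (S : Finset V) : ℕ := ∑ v ∈ S, c v

omit [DecidableEq V] in
lemma cost_mono {c : V → ℕ} {S T : Finset V} (h : S ⊆ T) : cost c S ≤ cost c T :=
  sum_le_sum_of_subset h

lemma cost_union_le {c : V → ℕ} {S T : Finset V} : cost c (S ∪ T) ≤ cost c S + cost c T := by
  unfold cost
  rw [← sum_union_inter]
  exact Nat.le_add_right _ _

/-- the basic lemma: a cheap connected set meeting all the `A i`, or a cheap set separating them -/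
lemma steiner (D : Finset V) {h : ℕ} (A : Fin h → Finset V) (I : Finset (Fin h)) (c : V → ℕ)
    (r : ℕ) (hr : 1 ≤ r) :
    (∃ T ⊆ D, Conn G T ∧ cost c T ≤ r ∧ ∀ i ∈ I, (T ∩ A i).Nonempty) ∨
    (∃ Z ⊆ D, r * cost c Z ≤ (h + 1) * ∑ v ∈ D, c v ^ 2 ∧
      ∀ K ⊆ D \ Z, Conn G K → ∃ i ∈ I, Disjoint K (A i)) := by
  classical
  -- the sets reached at level `j` within cost `m`
  let R : ℕ → ℕ → V → Prop := fun j m v => ∃ T ⊆ D, Conn G T ∧ v ∈ T ∧ cost c T ≤ m ∧
    ∀ i ∈ I, i.val < j → (T ∩ A i).Nonempty
  have hRmono : ∀ j v a b, a ≤ b → R j a v → R j b v := by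
    rintro j v a b hab ⟨T, h1, h2, h3, h4, h5⟩
    exact ⟨T, h1, h2, h3, h4.trans hab, h5⟩
  let Z : ℕ → Finset V := fun x => D.filter (fun v => ∃ j ∈ range (h + 1),
    R j (x + c v) v ∧ ¬ R j x v)
  have hZc : ∑ x ∈ range r, cost c (Z x) ≤ (h + 1) * ∑ v ∈ D, c v ^ 2 := by
    have h1 : ∀ x, cost c (Z x) ≤ ∑ v ∈ D, ∑ j ∈ range (h + 1),
        (if R j (x + c v) v ∧ ¬ R j x v then c v else 0) := by
      intro x
      unfold cost
      rw [sum_filter]
      apply sum_le_sum
      intro v _
      split_ifs with hv
      · obtain ⟨j, hj, hj'⟩ := hv
        calc c v = (if R j (x + c v) v ∧ ¬ R j x v then c v else 0) := by rw [if_pos hj']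
          _ ≤ _ := single_le_sum (f := fun j => if R j (x + c v) v ∧ ¬ R j x v then c v else 0)
            (fun _ _ => Nat.zero_le _) hj
      · exact Nat.zero_le _
    calc ∑ x ∈ range r, cost c (Z x)
        ≤ ∑ x ∈ range r, ∑ v ∈ D, ∑ j ∈ range (h + 1),
        (if R j (x + c v) v ∧ ¬ R j x v then c v else 0) := sum_le_sum fun x _ => h1 x
      _ = ∑ v ∈ D, ∑ j ∈ range (h + 1), ∑ x ∈ range r,
        (if R j (x + c v) v ∧ ¬ R j x v then c v else 0) := by
          rw [sum_comm]
          refine sum_congr rfl fun v _ => ?_
          rw [sum_comm]
      _ ≤ ∑ v ∈ D, ∑ j ∈ range (h + 1), c v ^ 2 := by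
          refine sum_le_sum fun v _ => sum_le_sum fun j _ => ?_
          rw [← sum_filter, sum_const, smul_eq_mul, pow_two]
          exact Nat.mul_le_mul_right _ (card_window (P := fun m => R j m v) (hRmono j v) r (c v))
      _ = (h + 1) * ∑ v ∈ D, c v ^ 2 := by
          rw [mul_sum]
          refine sum_congr rfl fun v _ => ?_
          rw [sum_const, card_range, smul_eq_mul]
  obtain ⟨x, hx, hxZ⟩ : ∃ x ∈ range r, r * cost c (Z x) ≤ (h + 1) * ∑ v ∈ D, c v ^ 2 := by
    apply exists_le_of_sum_le (by simpa using (by omega : r ≠ 0))
    rw [← mul_sum, sum_const, card_range, smul_eq_mul]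
    exact Nat.mul_le_mul_left _ hZc
  by_cases hT : ∃ T ⊆ D, Conn G T ∧ cost c T ≤ r ∧ ∀ i ∈ I, (T ∩ A i).Nonempty
  · exact Or.inl hT
  · right
    refine ⟨Z x, filter_subset _ _, hxZ, ?_⟩
    intro K hK hKc
    by_contra hcon
    push Not at hcon
    apply hT
    have hnotZ : ∀ v ∈ K, ∀ j ≤ h, R j (x + c v) v → R j x v := by
      intro v hv j hj h1
      have h2 := mem_sdiff.1 (hK hv)
      by_contra h3
      exact h2.2 (mem_filter.2 ⟨h2.1, j, mem_range.2 (by omega), h1, h3⟩)
    have key : ∀ j ≤ h, ∀ v ∈ K, R j x v := by
      intro j
      induction j with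
      | zero =>
        intro _ v hv
        apply hnotZ v hv 0 (Nat.zero_le _)
        refine ⟨{v}, by simpa using (mem_sdiff.1 (hK hv)).1, conn_singleton v, by simp, ?_, ?_⟩
        · simp [cost]
        · intro i _ hi
          omega
      | succ j ih =>
        intro hj
        have ihj := ih (by omega)
        have hstep : ∀ u ∈ K, R (j + 1) x u → ∀ w ∈ K, G.Adj u w → R (j + 1) x w := by
          rintro u hu ⟨T, h1, h2, h3, h4, h5⟩ w hw huw
          apply hnotZ w hw (j + 1) hj
          refine ⟨T ∪ {w}, union_subset h1 (by simpa using (mem_sdiff.1 (hK hw)).1),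
            h2.union_adj (conn_singleton w) h3 (by simp) huw, by simp, ?_, ?_⟩
          · refine cost_union_le.trans ?_
            simp only [cost, sum_singleton] at h4 ⊢
            omega
          · intro i hi hij
            exact (h5 i hi hij).mono (inter_subset_inter_right subset_union_left)
        by_cases hjI : (⟨j, by omega⟩ : Fin h) ∈ I
        · -- some vertex of `K` is in `A j`
          have h1 := hcon _ hjI
          rw [not_disjoint_iff] at h1
          obtain ⟨v, hvK, hvA⟩ := h1
          refine hKc.spread hvK ?_ hstep
          obtain ⟨T, h1, h2, h3, h4, h5⟩ := ihj v hvK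
          refine ⟨T, h1, h2, h3, h4, ?_⟩
          intro i hi hij
          by_cases hij' : i.val < j
          · exact h5 i hi hij'
          · have : i = ⟨j, by omega⟩ := Fin.ext (by simp; omega)
            rw [this]
            exact ⟨v, mem_inter.2 ⟨h3, hvA⟩⟩
        · intro v hv
          obtain ⟨T, h1, h2, h3, h4, h5⟩ := ihj v hv
          refine ⟨T, h1, h2, h3, h4, ?_⟩
          intro i hi hij
          by_cases hij' : i.val < j
          · exact h5 i hi hij'
          · exfalso
            have : i = ⟨j, by omega⟩ := Fin.ext (by simp; omega)
            exact hjI (this ▸ hi)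
    obtain ⟨v, hv⟩ := hKc.ne
    obtain ⟨T, h1, h2, h3, h4, h5⟩ := key h le_rfl v hv
    rw [mem_range] at hx
    exact ⟨T, h1, h2, by omega, fun i hi => h5 i hi i.isLt⟩

/-- the state of the main argument -/
structure State (G : SimpleGraph V) (n h r : ℕ) (c : V → ℕ) (I : Finset (Fin h))
    (C : Fin h → Finset V) (X D : Finset V) : Prop where
  hD : Conn G D
  hDX : Disjoint D X
  hcl : ∀ u ∈ D, ∀ w, w ∉ D → G.Adj u w → w ∈ X
  hbig : n < 2 * D.card
  hC : ∀ i ∈ I, Conn G (C i)
  hdisj : ∀ i ∈ I, ∀ j ∈ I, i ≠ j → Disjoint (C i) (C j)
  hadj : ∀ i ∈ I, ∀ j ∈ I, i ≠ j → ∃ u ∈ C i, ∃ v ∈ C j, G.Adj u v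
  hX : ∀ x ∈ X, ∃ i ∈ I, x ∈ C i
  hcost : ∀ i ∈ I, cost c (X ∩ C i) ≤ r
  hCD : ∀ i ∈ I, Disjoint (C i) D

lemma State.cost_le {n h r : ℕ} {c : V → ℕ} {I : Finset (Fin h)} {C : Fin h → Finset V}
    {X D : Finset V} (s : State G n h r c I C X D) : cost c X ≤ I.card * r := by
  have h1 : X ⊆ I.biUnion (fun i => X ∩ C i) := by
    intro x hx
    obtain ⟨i, hi, hxi⟩ := s.hX x hx
    exact mem_biUnion.2 ⟨i, hi, mem_inter.2 ⟨hx, hxi⟩⟩
  have h2 : cost c (I.biUnion (fun i => X ∩ C i)) ≤ ∑ i ∈ I, cost c (X ∩ C i) := by
    classical
    have h3 : ∀ J : Finset (Fin h), cost c (J.biUnion (fun i => X ∩ C i)) ≤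
        ∑ i ∈ J, cost c (X ∩ C i) := by
      intro J
      induction J using Finset.induction_on with
      | empty => simp [cost]
      | insert a J ha ih =>
        rw [biUnion_insert, sum_insert ha]
        exact cost_union_le.trans (Nat.add_le_add_left ih _)
    exact h3 I
  calc cost c X ≤ _ := cost_mono h1
    _ ≤ _ := h2
    _ ≤ ∑ i ∈ I, r := sum_le_sum fun i hi => s.hcost i hi
    _ = I.card * r := by rw [sum_const, smul_eq_mul]

theorem cost_separator [Fintype V] {h r : ℕ} (hno : ¬ Model G h univ) (c : V → ℕ) (hr : 1 ≤ r)
    (hcr : (h + 1) * ∑ v, c v ^ 2 ≤ r ^ 2) :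
    ∃ X : Finset V, cost c X ≤ h * r ∧
      ∀ K, Conn G K → Disjoint K X → 2 * K.card ≤ Fintype.card V := by
  classical
  by_contra hcon
  push Not at hcon
  set n := Fintype.card V with hn
  -- the big components
  have hbigc : ∀ X : Finset V, cost c X ≤ h * r → ∃ D : Finset V, Conn G D ∧ Disjoint D X ∧
      n < 2 * D.card ∧ ∀ u ∈ D, ∀ w, w ∉ D → G.Adj u w → w ∈ X := by
    intro X hX
    obtain ⟨K0, h1, h2, h3⟩ := hcon X hX
    let F : Finset (Finset V) := univ.filter (fun K => Conn G K ∧ Disjoint K X ∧ n < 2 * K.card)
    have hF : ∀ K, K ∈ F ↔ Conn G K ∧ Disjoint K X ∧ n < 2 * K.card := by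
      intro K
      simp [F]
    obtain ⟨D, hDF, hmax⟩ := exists_max_image F (fun K => K.card) ⟨K0, (hF _).2 ⟨h1, h2, h3⟩⟩
    obtain ⟨e1, e2, e3⟩ := (hF D).1 hDF
    refine ⟨D, e1, e2, e3, ?_⟩
    intro u hu w hw huw
    by_contra hwX
    have e4 : (D ∪ {w}).card = D.card + 1 := by
      rw [card_union_of_disjoint (by simpa using hw), card_singleton]
    have e5 := hmax (D ∪ {w}) ((hF _).2 ⟨e1.union_adj (conn_singleton w) hu (by simp) huw, by
      rw [disjoint_union_left]
      exact ⟨e2, by simpa using hwX⟩, by omega⟩)
    simp only [e4] at e5
    omega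
  -- two big sets meet
  have hmeet : ∀ D D' : Finset V, n < 2 * D.card → n < 2 * D'.card → ∃ v, v ∈ D ∧ v ∈ D' := by
    intro D D' h1 h2
    by_contra h3
    push Not at h3
    have h4 : Disjoint D D' := Finset.disjoint_left.2 h3
    have h5 := card_union_of_disjoint h4
    have h6 : (D ∪ D').card ≤ n := by rw [hn]; exact card_le_univ _
    omega
  -- the main induction
  have main : ∀ (m : ℕ) (I : Finset (Fin h)) (C : Fin h → Finset V) (X D : Finset V),
      I.card + X.card + 3 * D.card = m → State G n h r c I C X D → False := by
    intro m
    induction m using Nat.strong_induction_on with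
    | _ m ih =>
      intro I C X D hm s
      -- not all indices are used
      have hIlt : I.card < h := by
        by_contra hge
        push Not at hge
        have h1 : I = univ := by
          apply eq_univ_of_card
          have := card_le_univ I
          simp only [Fintype.card_fin] at this ⊢
          omega
        apply hno
        refine ⟨C, fun i => subset_univ _, fun i => s.hC i (by rw [h1]; exact mem_univ _),
          fun i j hij => s.hdisj i (by rw [h1]; exact mem_univ _) j (by rw [h1]; exact mem_univ _)
            hij,
          fun i j hij => s.hadj i (by rw [h1]; exact mem_univ _) j (by rw [h1]; exact mem_univ _)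
            hij⟩
      let A : Fin h → Finset V := fun i => D.filter (fun v => ∃ u ∈ C i, G.Adj u v)
      have hA : ∀ i v, v ∈ A i ↔ v ∈ D ∧ ∃ u ∈ C i, G.Adj u v := by
        intro i v
        simp [A]
      rcases steiner (G := G) D A I c r hr with ⟨T, hTD, hTc, hTcost, hTA⟩ |
        ⟨Z, hZD, hZcost, hZ⟩
      · -- a new branch set
        obtain ⟨j, hj⟩ : ∃ j, j ∉ I := by
          by_contra hall
          push Not at hall
          have : I = univ := eq_univ_iff_forall.2 hall
          rw [this, card_univ, Fintype.card_fin] at hIlt
          exact lt_irrefl _ hIlt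
        have hXT : cost c (X ∪ T) ≤ h * r := by
          refine cost_union_le.trans ?_
          have h1 := s.cost_le
          calc cost c X + cost c T ≤ I.card * r + r := by omega
            _ = (I.card + 1) * r := by ring
            _ ≤ h * r := Nat.mul_le_mul_right _ hIlt
        obtain ⟨D', d1, d2, d3, d4⟩ := hbigc (X ∪ T) hXT
        rw [disjoint_union_right] at d2
        have hD'D : D' ⊆ D := by
          obtain ⟨v, hv, hv'⟩ := hmeet D D' s.hbig d3
          refine d1.spread hv' hv ?_
          intro u hu huD w hw huw
          by_contra hwD
          exact (Finset.disjoint_left.1 d2.1 hw) (s.hcl u huD w hwD huw)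
        have hTn := hTc.ne
        have hTpos : 0 < T.card := card_pos.2 hTn
        have hcard : D'.card + T.card ≤ D.card := by
          rw [← card_union_of_disjoint d2.2]
          exact card_le_card (union_subset hD'D hTD)
        have hXTc := card_union_le X T
        refine ih ((insert j I).card + (X ∪ T).card + 3 * D'.card) ?_ (insert j I)
          (Function.update C j T) (X ∪ T) D' rfl ?_
        · rw [card_insert_of_notMem hj]
          omega
        · have hne : ∀ i ∈ I, i ≠ j := fun i hi h => hj (h ▸ hi)
          have hCT : ∀ i ∈ I, Disjoint (C i) T := fun i hi =>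
            disjoint_of_subset_right hTD (s.hCD i hi)
          have hadjT : ∀ i ∈ I, ∃ u ∈ C i, ∃ v ∈ T, G.Adj u v := by
            intro i hi
            obtain ⟨v, hv⟩ := hTA i hi
            rw [mem_inter, hA] at hv
            obtain ⟨h1, _, u, hu, huv⟩ := hv
            exact ⟨u, hu, v, h1, huv⟩
          constructor
          · exact d1
          · rw [disjoint_union_right]
            exact d2
          · exact d4
          · exact d3
          · intro i hi
            rcases mem_insert.1 hi with rfl | hi
            · rw [Function.update_self]; exact hTc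
            · rw [Function.update_of_ne (hne i hi)]; exact s.hC i hi
          · intro i hi0 i' hi0' hii
            rcases mem_insert.1 hi0 with rfl | hi <;> rcases mem_insert.1 hi0' with rfl | hi'
            · exact absurd rfl hii
            · rw [Function.update_self, Function.update_of_ne (hne i' hi')]
              exact (hCT i' hi').symm
            · rw [Function.update_self, Function.update_of_ne (hne i hi)]
              exact hCT i hi
            · rw [Function.update_of_ne (hne i hi), Function.update_of_ne (hne i' hi')]
              exact s.hdisj i hi i' hi' hii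
          · intro i hi0 i' hi0' hii
            rcases mem_insert.1 hi0 with rfl | hi <;> rcases mem_insert.1 hi0' with rfl | hi'
            · exact absurd rfl hii
            · rw [Function.update_self, Function.update_of_ne (hne i' hi')]
              obtain ⟨u, hu, v, hv, huv⟩ := hadjT i' hi'
              exact ⟨v, hv, u, hu, huv.symm⟩
            · rw [Function.update_self, Function.update_of_ne (hne i hi)]
              exact hadjT i hi
            · rw [Function.update_of_ne (hne i hi), Function.update_of_ne (hne i' hi')]
              exact s.hadj i hi i' hi' hii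
          · intro x hx
            rcases mem_union.1 hx with hx | hx
            · obtain ⟨i, hi, hxi⟩ := s.hX x hx
              refine ⟨i, mem_insert_of_mem hi, ?_⟩
              rw [Function.update_of_ne (hne i hi)]
              exact hxi
            · refine ⟨j, mem_insert_self _ _, ?_⟩
              rw [Function.update_self]
              exact hx
          · intro i hi
            rcases mem_insert.1 hi with rfl | hi
            · rw [Function.update_self]
              exact (cost_mono inter_subset_right).trans hTcost
            · rw [Function.update_of_ne (hne i hi)]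
              have : (X ∪ T) ∩ C i = X ∩ C i := by
                rw [union_inter_distrib_right]
                have h1 : T ∩ C i = ∅ := (disjoint_iff_inter_eq_empty.1 (hCT i hi).symm)
                rw [h1, union_empty]
              rw [this]
              exact s.hcost i hi
          · intro i hi
            rcases mem_insert.1 hi with rfl | hi
            · rw [Function.update_self]
              exact d2.2.symm
            · rw [Function.update_of_ne (hne i hi)]
              exact disjoint_of_subset_right hD'D (s.hCD i hi)
      · -- a separating set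
        have hZr : cost c Z ≤ r := by
          have h1 : r * cost c Z ≤ r * r := by
            calc r * cost c Z ≤ (h + 1) * ∑ v ∈ D, c v ^ 2 := hZcost
              _ ≤ (h + 1) * ∑ v, c v ^ 2 := Nat.mul_le_mul_left _
                (sum_le_sum_of_subset (subset_univ _))
              _ ≤ r ^ 2 := hcr
              _ = r * r := pow_two r
          exact Nat.le_of_mul_le_mul_left h1 hr
        have hXZ : cost c (X ∪ Z) ≤ h * r := by
          refine cost_union_le.trans ?_
          have h1 := s.cost_le
          calc cost c X + cost c Z ≤ I.card * r + r := by omega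
            _ = (I.card + 1) * r := by ring
            _ ≤ h * r := Nat.mul_le_mul_right _ hIlt
        obtain ⟨D2, d1, d2, d3, d4⟩ := hbigc (X ∪ Z) hXZ
        rw [disjoint_union_right] at d2
        have hD2D : D2 ⊆ D := by
          obtain ⟨v, hv, hv'⟩ := hmeet D D2 s.hbig d3
          refine d1.spread hv' hv ?_
          intro u hu huD w hw huw
          by_contra hwD
          exact (Finset.disjoint_left.1 d2.1 hw) (s.hcl u huD w hwD huw)
        obtain ⟨i, hi, hiD2⟩ := hZ D2 (fun x hx => mem_sdiff.2 ⟨hD2D hx,
          Finset.disjoint_left.1 d2.2 hx⟩) d1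
        -- the part attached to `C i`
        let P : Finset V := (D \ D2).filter (fun v => ∃ K ⊆ D \ D2, Conn G K ∧ v ∈ K ∧
          (K ∩ A i).Nonempty)
        have hP : ∀ v, v ∈ P ↔ v ∈ D \ D2 ∧ ∃ K ⊆ D \ D2, Conn G K ∧ v ∈ K ∧
            (K ∩ A i).Nonempty := by
          intro v
          simp [P]
        have hKP : ∀ K ⊆ D \ D2, Conn G K → (∃ v ∈ K, v ∈ P) → K ⊆ P := by
          intro K hK hKc hv w hw
          obtain ⟨v, hvK, hvP⟩ := hv
          obtain ⟨_, K', h1, h2, h3, h4⟩ := (hP v).1 hvP
          refine (hP w).2 ⟨hK hw, K' ∪ K, union_subset h1 hK, h2.union_inter hKc h3 hvK,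
            mem_union_right _ hw, ?_⟩
          exact h4.mono (inter_subset_inter_right subset_union_left)
        have hKP' : ∀ K ⊆ D \ D2, Conn G K → (K ∩ A i).Nonempty → K ⊆ P := by
          intro K hK hKc hne w hw
          exact (hP w).2 ⟨hK hw, K, hK, hKc, hw, hne⟩
        have hPD : P ⊆ D := fun v hv => (mem_sdiff.1 ((hP v).1 hv).1).1
        have hPD2 : ∀ v ∈ P, v ∉ D2 := fun v hv => (mem_sdiff.1 ((hP v).1 hv).1).2
        have hAP : ∀ v ∈ A i, v ∈ P := by
          intro v hv
          have h1 : v ∈ D := ((hA i v).1 hv).1
          have h2 : v ∉ D2 := fun h => Finset.disjoint_left.1 hiD2 h hv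
          have h3 : v ∈ D \ D2 := mem_sdiff.2 ⟨h1, h2⟩
          refine hKP' {v} (by simpa using h3) (conn_singleton v) ⟨v, by simp [hv]⟩ (by simp)
        by_cases hPe : P = ∅
        · -- drop the branch set `C i`
          have hAe : ∀ v, v ∉ A i := by
            intro v hv
            have := hAP v hv
            rw [hPe] at this
            simp at this
          have hnoadj : ∀ u ∈ D, ∀ w ∈ C i, ¬ G.Adj u w := by
            intro u hu w hw huw
            exact hAe u ((hA i u).2 ⟨hu, w, hw, huw.symm⟩)
          have hIc : (I.erase i).card = I.card - 1 := card_erase_of_mem hi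
          have hIpos : 0 < I.card := card_pos.2 ⟨i, hi⟩
          have hXc : (X \ C i).card ≤ X.card := card_le_card sdiff_subset
          refine ih ((I.erase i).card + (X \ C i).card + 3 * D.card) (by omega) (I.erase i) C
            (X \ C i) D rfl ?_
          constructor
          · exact s.hD
          · exact disjoint_of_subset_right sdiff_subset s.hDX
          · intro u hu w hw huw
            exact mem_sdiff.2 ⟨s.hcl u hu w hw huw, fun h => hnoadj u hu w h huw⟩
          · exact s.hbig
          · exact fun k hk => s.hC k (mem_of_mem_erase hk)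
          · exact fun k hk l hl => s.hdisj k (mem_of_mem_erase hk) l (mem_of_mem_erase hl)
          · exact fun k hk l hl => s.hadj k (mem_of_mem_erase hk) l (mem_of_mem_erase hl)
          · intro x hx
            obtain ⟨hx1, hx2⟩ := mem_sdiff.1 hx
            obtain ⟨k, hk, hxk⟩ := s.hX x hx1
            refine ⟨k, mem_erase.2 ⟨?_, hk⟩, hxk⟩
            rintro rfl
            exact hx2 hxk
          · intro k hk
            refine (cost_mono ?_).trans (s.hcost k (mem_of_mem_erase hk))
            exact inter_subset_inter_right sdiff_subset
          · exact fun k hk => s.hCD k (mem_of_mem_erase hk)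
        · -- enlarge the branch set `C i`
          have hPne : P.Nonempty := nonempty_iff_ne_empty.2 hPe
          have hPpos : 0 < P.card := card_pos.2 hPne
          have hZP : (Z ∩ P).card ≤ P.card := card_le_card inter_subset_right
          have hDP : (D \ P).card + P.card = D.card := card_sdiff_add_card_eq_card hPD
          have hXc : ((X \ C i) ∪ (Z ∩ P)).card ≤ X.card + (Z ∩ P).card :=
            (card_union_le _ _).trans (Nat.add_le_add_right (card_le_card sdiff_subset) _)
          have hD2P : D2 ⊆ D \ P := fun v hv => mem_sdiff.2 ⟨hD2D hv, fun h => hPD2 v h hv⟩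
          have hPX : Disjoint P X := disjoint_of_subset_left hPD s.hDX
          -- connectivity of the new region
          have hconn : Conn G (D \ P) := by
            obtain ⟨z, hz⟩ := d1.ne
            refine conn_of_root (hD2P hz) ?_
            intro v hv
            obtain ⟨hvD, hvP⟩ := mem_sdiff.1 hv
            by_cases hvD2 : v ∈ D2
            · exact ⟨D2, hD2P, d1, hz, hvD2⟩
            · -- walk to `D2`
              have hex : ∃ u w, w ∈ D2 ∧ G.Adj u w ∧ ∃ K ⊆ D \ D2, Conn G K ∧ v ∈ K ∧ u ∈ K := by
                by_contra hno2
                push Not at hno2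
                have hall : ∀ w ∈ D, w ∈ D \ D2 ∧ ∃ K ⊆ D \ D2, Conn G K ∧ v ∈ K ∧ w ∈ K := by
                  refine s.hD.spread hvD ?_ ?_
                  · have h1 : v ∈ D \ D2 := mem_sdiff.2 ⟨hvD, hvD2⟩
                    exact ⟨h1, {v}, by simpa using h1, conn_singleton v, by simp, by simp⟩
                  · rintro u hu ⟨h1, K, h2, h3, h4, h5⟩ w hw huw
                    have h6 : w ∉ D2 := fun h => hno2 u w h huw K h2 h3 h4 h5
                    have h7 : w ∈ D \ D2 := mem_sdiff.2 ⟨hw, h6⟩
                    exact ⟨h7, K ∪ {w}, union_subset h2 (by simpa using h7),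
                      h3.union_adj (conn_singleton w) h5 (by simp) huw, mem_union_left _ h4,
                      by simp⟩
                exact (mem_sdiff.1 (hall z (hD2D hz)).1).2 hz
              obtain ⟨u, w, hw, huw, K, h2, h3, h4, h5⟩ := hex
              have hKsub : K ⊆ D \ P := by
                intro k hk
                refine mem_sdiff.2 ⟨(mem_sdiff.1 (h2 hk)).1, fun hkP => ?_⟩
                exact hvP (hKP K h2 h3 ⟨k, hk, hkP⟩ h4)
              exact ⟨K ∪ D2, union_subset hKsub hD2P, h3.union_adj d1 h5 hw huw,
                mem_union_right _ hz, mem_union_left _ h4⟩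
          have hCP : Conn G (C i ∪ P) := by
            obtain ⟨z, hz⟩ := (s.hC i hi).ne
            refine conn_of_root (mem_union_left _ hz) ?_
            intro v hv
            rcases mem_union.1 hv with hv | hv
            · exact ⟨C i, subset_union_left, s.hC i hi, hz, hv⟩
            · obtain ⟨_, K, h2, h3, h4, a, ha⟩ := (hP v).1 hv
              rw [mem_inter, hA] at ha
              obtain ⟨ha1, _, u, hu, hua⟩ := ha
              refine ⟨C i ∪ K, union_subset_union Subset.rfl (hKP K h2 h3 ⟨v, h4, hv⟩),
                (s.hC i hi).union_adj h3 hu ha1 hua, mem_union_left _ hz, mem_union_right _ h4⟩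
          refine ih (I.card + ((X \ C i) ∪ (Z ∩ P)).card + 3 * (D \ P).card) (by omega) I
            (Function.update C i (C i ∪ P)) ((X \ C i) ∪ (Z ∩ P)) (D \ P) rfl ?_
          have hCPj : ∀ j ∈ I, Disjoint (C j) P := fun j hj =>
            disjoint_of_subset_right hPD (s.hCD j hj)
          constructor
          · exact hconn
          · rw [disjoint_union_right]
            refine ⟨disjoint_of_subset_left sdiff_subset
              (disjoint_of_subset_right sdiff_subset s.hDX), ?_⟩
            exact disjoint_of_subset_right inter_subset_right sdiff_disjoint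
          · intro u hu w hw huw
            obtain ⟨huD, huP⟩ := mem_sdiff.1 hu
            by_cases hwD : w ∈ D
            · have hwP : w ∈ P := by
                by_contra h
                exact hw (mem_sdiff.2 ⟨hwD, h⟩)
              have huD2 : u ∈ D2 := by
                by_contra h
                have h1 : u ∈ D \ D2 := mem_sdiff.2 ⟨huD, h⟩
                obtain ⟨h0, K, h2, h3, h4, h5⟩ := (hP w).1 hwP
                exact huP ((hKP' (K ∪ {u}) (union_subset h2 (by simpa using h1))
                  (h3.union_adj (conn_singleton u) h4 (by simp) huw.symm)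
                  (h5.mono (inter_subset_inter_right subset_union_left))) (by simp))
              have hwXZ := d4 u huD2 w (hPD2 w hwP) huw
              rcases mem_union.1 hwXZ with h | h
              · exact absurd h (Finset.disjoint_left.1 hPX hwP)
              · exact mem_union_right _ (mem_inter.2 ⟨h, hwP⟩)
            · have h1 := s.hcl u huD w hwD huw
              refine mem_union_left _ (mem_sdiff.2 ⟨h1, fun h2 => ?_⟩)
              exact huP (hAP u ((hA i u).2 ⟨huD, w, h2, huw.symm⟩))
          · have := card_le_card hD2P
            omega
          · intro j hj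
            by_cases hji : j = i
            · subst hji
              rw [Function.update_self]
              exact hCP
            · rw [Function.update_of_ne hji]
              exact s.hC j hj
          · intro j hj k hk hjk
            by_cases hji : j = i
            · subst hji
              rw [Function.update_self, Function.update_of_ne (Ne.symm hjk), disjoint_union_left]
              exact ⟨s.hdisj j hj k hk hjk, (hCPj k hk).symm⟩
            · rw [Function.update_of_ne hji]
              by_cases hki : k = i
              · subst hki
                rw [Function.update_self, disjoint_union_right]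
                exact ⟨s.hdisj j hj k hk hjk, hCPj j hj⟩
              · rw [Function.update_of_ne hki]
                exact s.hdisj j hj k hk hjk
          · intro j hj k hk hjk
            obtain ⟨u, hu, v, hv, huv⟩ := s.hadj j hj k hk hjk
            have hsub : ∀ l, C l ⊆ Function.update C i (C i ∪ P) l := by
              intro l
              by_cases hl : l = i
              · subst hl
                rw [Function.update_self]
                exact subset_union_left
              · rw [Function.update_of_ne hl]
            exact ⟨u, hsub j hu, v, hsub k hv, huv⟩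
          · intro x hx
            rcases mem_union.1 hx with hx | hx
            · obtain ⟨hx1, hx2⟩ := mem_sdiff.1 hx
              obtain ⟨k, hk, hxk⟩ := s.hX x hx1
              have hki : k ≠ i := by
                rintro rfl
                exact hx2 hxk
              refine ⟨k, hk, ?_⟩
              rw [Function.update_of_ne hki]
              exact hxk
            · refine ⟨i, hi, ?_⟩
              rw [Function.update_self]
              exact mem_union_right _ (mem_inter.1 hx).2
          · intro j hj
            by_cases hji : j = i
            · subst hji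
              rw [Function.update_self]
              refine (cost_mono ?_).trans hZr
              intro x hx
              obtain ⟨h1, h2⟩ := mem_inter.1 hx
              rcases mem_union.1 h1 with h1 | h1
              · exfalso
                obtain ⟨h3, h4⟩ := mem_sdiff.1 h1
                rcases mem_union.1 h2 with h2 | h2
                · exact h4 h2
                · exact Finset.disjoint_left.1 hPX h2 h3
              · exact (mem_inter.1 h1).1
            · rw [Function.update_of_ne hji]
              refine (cost_mono ?_).trans (s.hcost j hj)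
              intro x hx
              obtain ⟨h1, h2⟩ := mem_inter.1 hx
              rcases mem_union.1 h1 with h1 | h1
              · exact mem_inter.2 ⟨(mem_sdiff.1 h1).1, h2⟩
              · exfalso
                exact Finset.disjoint_left.1 (hCPj j hj) h2 (mem_inter.1 h1).2
          · intro j hj
            by_cases hji : j = i
            · subst hji
              rw [Function.update_self, disjoint_union_left]
              exact ⟨disjoint_of_subset_right sdiff_subset (s.hCD j hj), disjoint_sdiff⟩
            · rw [Function.update_of_ne hji]
              exact disjoint_of_subset_right sdiff_subset (s.hCD j hj)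
  -- the initial state
  obtain ⟨D, d1, d2, d3, d4⟩ := hbigc ∅ (by simp [cost])
  refine main _ ∅ (fun _ => ∅) ∅ D rfl ?_
  constructor
  · exact d1
  · exact d2
  · exact d4
  · exact d3
  all_goals simp

end Pool.Agent.Y395
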