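import Pool.Agent.Y395.Basic

/-!
Dense graphs have complete minors: if the degree sum of the subgraph induced on a nonempty set `S`
is at least `2 * 2 ^ t * |S|`, then there is a `K_t` model with branch sets inside `S`.
-/

set_option autoImplicit false

namespace Pool.Agent.Y395

open Finset

variable {V : Type*} [DecidableEq V] (G : SimpleGraph V) [DecidableRel G.Adj]

/-- a `K_t` model inside the set `S` -/
def Model (t : ℕ) (S : Finset V) : Prop :=
  ∃ B : Fin t → Finset V, (∀ i, B i ⊆ S) ∧ (∀ i, Conn G (B i)) ∧
    (∀ i j, i ≠ j → Disjoint (B i) (B j)) ∧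
    ∀ i j, i ≠ j → ∃ u ∈ B i, ∃ v ∈ B j, G.Adj u v

/-- neighbours in a set -/
def nb (S : Finset V) (v : V) : Finset V := S.filter (fun w => G.Adj v w)

/-- degree sum of an induced subgraph -/
def dsum (S : Finset V) : ℕ := ∑ v ∈ S, (nb G S v).card

variable {G}

lemma mem_nb {S : Finset V} {v w : V} : w ∈ nb G S v ↔ w ∈ S ∧ G.Adj v w := by
  simp [nb]

lemma dsum_erase {S : Finset V} {v : V} (hv : v ∈ S) :
    dsum G S = dsum G (S.erase v) + 2 * (nb G S v).card := by
  have h1 : ∀ w ∈ S.erase v, (nb G S w).card = (nb G (S.erase v) w).card +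
      (if G.Adj v w then 1 else 0) := by
    intro w hw
    by_cases h : G.Adj v w
    · rw [if_pos h]
      have h2 : nb G S w = insert v (nb G (S.erase v) w) := by
        ext x
        simp only [mem_nb, mem_insert, mem_erase]
        constructor
        · rintro ⟨h3, h4⟩
          by_cases hx : x = v
          · exact Or.inl hx
          · exact Or.inr ⟨⟨hx, h3⟩, h4⟩
        · rintro (rfl | ⟨⟨h3, h4⟩, h5⟩)
          · exact ⟨hv, h.symm⟩
          · exact ⟨h4, h5⟩
      rw [h2, card_insert_of_notMem (by simp [mem_nb])]
    · rw [if_neg h, add_zero]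
      congr 1
      ext x
      simp only [mem_nb, mem_erase]
      constructor
      · rintro ⟨h3, h4⟩
        refine ⟨⟨?_, h3⟩, h4⟩
        rintro rfl
        exact h h4.symm
      · rintro ⟨⟨_, h4⟩, h5⟩
        exact ⟨h4, h5⟩
  have h2 : ∑ w ∈ S.erase v, (if G.Adj v w then 1 else 0) = (nb G S v).card := by
    rw [← card_filter]
    congr 1
    ext x
    simp only [mem_filter, mem_nb, mem_erase]
    constructor
    · rintro ⟨⟨_, h4⟩, h5⟩
      exact ⟨h4, h5⟩
    · rintro ⟨h4, h5⟩
      exact ⟨⟨h5.ne', h4⟩, h5⟩
  unfold dsum
  rw [← add_sum_erase _ _ hv, sum_congr rfl h1, sum_add_distrib, h2]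
  ring

/-- vertices of `S` outside `U` with a neighbour in `U` -/
def bd (G : SimpleGraph V) [DecidableRel G.Adj] (S U : Finset V) : Finset V :=
  (S \ U).filter (fun v => ∃ u ∈ U, G.Adj u v)

lemma mem_bd {S U : Finset V} {v : V} : v ∈ bd G S U ↔ (v ∈ S ∧ v ∉ U) ∧ ∃ u ∈ U, G.Adj u v := by
  simp [bd]

theorem dense_model (t : ℕ) : ∀ (n : ℕ) (S : Finset V), S.card = n → S.Nonempty →
    2 * 2 ^ t * S.card ≤ dsum G S → Model G t S := by
  induction t with
  | zero =>
    intro n S _ _ _
    exact ⟨fun i => i.elim0, fun i => i.elim0, fun i => i.elim0, fun i => i.elim0,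
      fun i => i.elim0⟩
  | succ t iht =>
    intro n
    induction n using Nat.strong_induction_on with
    | _ n ihn =>
      intro S hSn hne hd
      classical
      -- the good connected sets
      let F : Finset (Finset V) := S.powerset.filter (fun U => Conn G U ∧
        2 * 2 ^ (t + 1) * (S.card - U.card + 1) ≤ dsum G (S \ U) + 2 * (bd G S U).card)
      have hF : ∀ U, U ∈ F ↔ U ⊆ S ∧ Conn G U ∧
        2 * 2 ^ (t + 1) * (S.card - U.card + 1) ≤ dsum G (S \ U) + 2 * (bd G S U).card := by
        intro U
        simp [F]
      obtain ⟨v, hv⟩ := hne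
      have hv' : {v} ∈ F := by
        rw [hF]
        refine ⟨by simpa using hv, conn_singleton v, ?_⟩
        have h1 : S \ {v} = S.erase v := (erase_eq S v).symm
        have h2 : bd G S {v} = nb G S v := by
          ext x
          simp only [mem_bd, mem_nb, mem_singleton, exists_eq_left]
          constructor
          · rintro ⟨⟨h3, _⟩, h4⟩
            exact ⟨h3, h4⟩
          · rintro ⟨h3, h4⟩
            exact ⟨⟨h3, h4.ne'⟩, h4⟩
        rw [h1, h2, ← dsum_erase hv, card_singleton]
        have h3 : 1 ≤ S.card := card_pos.2 ⟨v, hv⟩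
        rw [Nat.sub_add_cancel h3]
        exact hd
      obtain ⟨U, hUF, hmax⟩ := exists_max_image F (fun U => U.card) ⟨_, hv'⟩
      obtain ⟨hUS, hU, hUd⟩ := (hF U).1 hUF
      have hUc : U.card ≤ S.card := card_le_card hUS
      have hUne := hU.ne
      have hsd : (S \ U).card = S.card - U.card := card_sdiff_of_subset hUS
      by_cases hb : (bd G S U).Nonempty
      · -- every vertex of the boundary has many neighbours in the boundary
        have key : ∀ w ∈ bd G S U, 2 * 2 ^ t ≤ (nb G (bd G S U) w).card := by
          intro w hw
          by_contra hlt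
          push Not at hlt
          obtain ⟨⟨hwS, hwU⟩, u, huU, huw⟩ := mem_bd.1 hw
          have hw1 : w ∈ S \ U := mem_sdiff.2 ⟨hwS, hwU⟩
          have hcon : Conn G (U ∪ {w}) := hU.union_adj (conn_singleton w) huU (by simp) huw
          have hbig : U ∪ {w} ∈ F := by
            rw [hF]
            refine ⟨union_subset hUS (by simpa using hwS), hcon, ?_⟩
            have e1 : S \ (U ∪ {w}) = (S \ U).erase w := by
              ext x
              simp only [mem_sdiff, mem_union, mem_singleton, mem_erase]
              tauto
            have e2 := dsum_erase (G := G) hw1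
            have e3 : (U ∪ {w}).card = U.card + 1 := by
              rw [card_union_of_disjoint (by simpa using hwU), card_singleton]
            -- the new boundary
            have e4 : bd G S (U ∪ {w}) = ((bd G S U).erase w) ∪ (nb G (S \ U) w) := by
              ext x
              simp only [mem_bd, mem_union, mem_singleton, mem_erase, mem_nb, mem_sdiff]
              constructor
              · rintro ⟨⟨h1, h2⟩, y, hy, hyx⟩
                push Not at h2
                rcases hy with hy | rfl
                · exact Or.inl ⟨h2.2, ⟨h1, h2.1⟩, y, hy, hyx⟩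
                · exact Or.inr ⟨⟨h1, h2.1⟩, hyx⟩
              · rintro (⟨h1, ⟨h2, h3⟩, y, hy, hyx⟩ | ⟨⟨h1, h2⟩, h3⟩)
                · exact ⟨⟨h2, by push Not; exact ⟨h3, h1⟩⟩, y, Or.inl hy, hyx⟩
                · exact ⟨⟨h1, by push Not; exact ⟨h2, h3.ne'⟩⟩, w, Or.inr rfl, h3⟩
            have e5' : (bd G S U).erase w ∩ nb G (S \ U) w = nb G (bd G S U) w := by
              ext x
              simp only [mem_nb, mem_inter, mem_erase, mem_sdiff]
              constructor
              · rintro ⟨⟨_, h2⟩, _, h4⟩
                exact ⟨h2, h4⟩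
              · rintro ⟨h1, h2⟩
                exact ⟨⟨h2.ne', h1⟩, (mem_bd.1 h1).1, h2⟩
            have e5 := card_union_add_card_inter ((bd G S U).erase w) (nb G (S \ U) w)
            rw [e5'] at e5
            have e6 : ((bd G S U).erase w).card = (bd G S U).card - 1 := card_erase_of_mem hw
            have e7 : 1 ≤ (bd G S U).card := card_pos.2 ⟨w, hw⟩
            have e8 : 1 ≤ (S \ U).card := card_pos.2 ⟨w, hw1⟩
            rw [e1, e3, e4]
            have e9 : S.card - (U.card + 1) + 1 + 1 = S.card - U.card + 1 := by omega
            have e10 : 2 * 2 ^ (t + 1) * (S.card - (U.card + 1) + 1) + 2 * 2 ^ (t + 1) =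
                2 * 2 ^ (t + 1) * (S.card - U.card + 1) := by
              rw [← e9]; ring
            have e11 : (2 : ℕ) ^ (t + 1) = 2 * 2 ^ t := by rw [pow_succ]; ring
            rw [e11] at e10 hUd ⊢
            omega
          have h1 := hmax _ hbig
          have h2 : (U ∪ {w}).card = U.card + 1 := by
            rw [card_union_of_disjoint (by simpa using hwU), card_singleton]
          simp only [h2] at h1
          omega
        have hds : 2 * 2 ^ t * (bd G S U).card ≤ dsum G (bd G S U) := by
          unfold dsum
          rw [mul_comm, ← smul_eq_mul, ← sum_const]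
          exact sum_le_sum key
        obtain ⟨B, hB1, hB2, hB3, hB4⟩ := iht _ (bd G S U) rfl hb hds
        have hbS : bd G S U ⊆ S := fun x hx => (mem_bd.1 hx).1.1
        have hbU : ∀ i, Disjoint U (B i) := by
          intro i
          rw [Finset.disjoint_left]
          intro x hx hx'
          exact (mem_bd.1 (hB1 i hx')).1.2 hx
        have hadj : ∀ i, ∃ u ∈ U, ∃ v ∈ B i, G.Adj u v := by
          intro i
          obtain ⟨x, hx⟩ := (hB2 i).ne
          obtain ⟨_, u, hu, hux⟩ := mem_bd.1 (hB1 i hx)
          exact ⟨u, hu, x, hx, hux⟩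
        refine ⟨Fin.cons U B, ?_, ?_, ?_, ?_⟩
        · intro i
          refine Fin.cases ?_ (fun i => ?_) i
          · exact hUS
          · exact (hB1 i).trans hbS
        · intro i
          refine Fin.cases ?_ (fun i => ?_) i
          · exact hU
          · exact hB2 i
        · intro i j
          refine Fin.cases ?_ (fun i => ?_) i
          · refine Fin.cases ?_ (fun j => ?_) j
            · exact fun h => absurd rfl h
            · exact fun _ => hbU j
          · refine Fin.cases ?_ (fun j => ?_) j
            · exact fun _ => (hbU i).symm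
            · exact fun h => hB3 i j (fun h' => h (by rw [h']))
        · intro i j
          refine Fin.cases ?_ (fun i => ?_) i
          · refine Fin.cases ?_ (fun j => ?_) j
            · exact fun h => absurd rfl h
            · exact fun _ => hadj j
          · refine Fin.cases ?_ (fun j => ?_) j
            · intro _
              obtain ⟨u, hu, v, hv, huv⟩ := hadj i
              exact ⟨v, hv, u, hu, huv.symm⟩
            · exact fun h => hB4 i j (fun h' => h (by rw [h']))
      · -- the set `U` is a union of components: go on with the rest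
        rw [not_nonempty_iff_eq_empty] at hb
        rw [hb, card_empty, mul_zero, add_zero] at hUd
        have h1 : (S \ U).Nonempty := by
          rw [nonempty_iff_ne_empty]
          intro h
          rw [h] at hUd
          have : dsum G (∅ : Finset V) = 0 := by simp [dsum]
          rw [this] at hUd
          have h2 : 0 < 2 * 2 ^ (t + 1) * (S.card - U.card + 1) := by positivity
          omega
        have h2 : 0 < U.card := card_pos.2 hUne
        obtain ⟨B, hB1, hB2, hB3, hB4⟩ := ihn (S \ U).card (by omega) (S \ U) rfl h1 (by
          rw [hsd]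
          refine le_trans ?_ hUd
          apply Nat.mul_le_mul_left
          omega)
        exact ⟨B, fun i => (hB1 i).trans sdiff_subset, hB2, hB3, hB4⟩

end Pool.Agent.Y395
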